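import Pool.Agent.Helper29_LeoK.Swp

/-!
# Squad leok, module SF4: quadruples in residue classes in `t • K`
-/

set_option autoImplicit false

open NumberField IsDedekindDomain Module MeasureTheory

namespace Pool.Agent.LeoK.H29

open Pool.Agent.LeoK

/-- the fundamental domain of a power of a basis -/
lemma fd_pi {κ σ : Type} [Fintype κ] [Fintype σ] (B : Basis κ ℝ (σ → ℝ)) :
    ZSpan.fundamentalDomain (Pi.basis (fun _ : Fin 4 => B)) =
      Set.pi Set.univ fun _ => ZSpan.fundamentalDomain B := by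
  ext u
  rw [ZSpan.mem_fundamentalDomain, Set.mem_pi]
  constructor
  · intro h j _
    rw [ZSpan.mem_fundamentalDomain]
    intro i
    exact h ⟨j, i⟩
  · intro h ji
    exact (ZSpan.mem_fundamentalDomain B).1 (h ji.1 (Set.mem_univ _)) ji.2

/-- the span of a power of a basis -/
lemma span_pi {κ σ : Type} [Fintype κ] [Fintype σ] (B : Basis κ ℝ (σ → ℝ))
    (u : Fin 4 → σ → ℝ) :
    u ∈ Submodule.span ℤ (Set.range (Pi.basis (fun _ : Fin 4 => B))) ↔
      ∀ j, u j ∈ Submodule.span ℤ (Set.range B) := by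
  rw [Basis.mem_span_iff_repr_mem]
  constructor
  · intro h j
    rw [Basis.mem_span_iff_repr_mem]
    intro i
    exact h ⟨j, i⟩
  · intro h ji
    exact (Basis.mem_span_iff_repr_mem ℤ B (u ji.1)).1 (h ji.1) ji.2

/-- a union bound for the fibres of a map to a finite type -/
lemma fib_bound {α β : Type} [Finite β] (f : α → β) (S : Set β) (T : Set α) (Bd : ℝ)
    (hT : ∀ v ∈ T, f v ∈ S) (h : ∀ c ∈ S, {v ∈ T | f v = c}.Finite ∧
      ({v ∈ T | f v = c}.ncard : ℝ) ≤ Bd) :
    T.Finite ∧ (T.ncard : ℝ) ≤ S.ncard * Bd := by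
  classical
  have hS : S.Finite := S.toFinite
  have hU : T = ⋃ c ∈ S, {v ∈ T | f v = c} := by
    ext v
    simp only [Set.mem_iUnion]
    constructor
    · intro hv
      exact ⟨f v, hT v hv, hv, rfl⟩
    · rintro ⟨c, -, hv, -⟩
      exact hv
  have hfin : T.Finite := by
    rw [hU]
    exact hS.biUnion fun c hc => (h c hc).1
  refine ⟨hfin, ?_⟩
  have h1 : (hfin.toFinset.card : ℝ) ≤ ∑ c ∈ hS.toFinset,
      ((hfin.toFinset.filter fun v => f v = c).card : ℝ) := by
    rw [Finset.card_eq_sum_card_fiberwise (f := f) (t := hS.toFinset)]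
    · push_cast
      exact le_refl _
    · intro v hv
      have hv' : v ∈ T := hfin.mem_toFinset.1 (Finset.mem_coe.1 hv)
      exact Finset.mem_coe.2 (hS.mem_toFinset.2 (hT v hv'))
  have h2 : ∀ c ∈ hS.toFinset, ((hfin.toFinset.filter fun v => f v = c).card : ℝ) ≤ Bd := by
    intro c hc
    have hc' := (h c (hS.mem_toFinset.1 hc)).2
    refine le_trans (le_of_eq ?_) hc'
    congr 1
    rw [← Set.ncard_coe_finset]
    congr 1
    ext v
    simp only [Finset.coe_filter, hfin.mem_toFinset]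
  have h3 : (hfin.toFinset.card : ℝ) ≤ hS.toFinset.card * Bd :=
    h1.trans ((Finset.sum_le_sum h2).trans (le_of_eq (by rw [Finset.sum_const, nsmul_eq_mul])))
  rw [← Set.ncard_eq_toFinset_card T hfin, ← Set.ncard_eq_toFinset_card S hS] at h3
  exact h3

/-- SF4. -/
theorem sf4 (hsft : SftStmt) (hcov : CovStmt) (hswp : SwpStmt) (hnor : NorStmt) : Sf4Stmt := by
  intro k _ _ hk Φ N hN S K hK ε hε
  classical
  obtain ⟨B', hB', hvol⟩ := hcov k hk Φ N hN
  have hcard := (hnor k hk).1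
  -- the space
  have hHaar := haar_pi (Fin 4) (Sg k)
  have hHaar1 : (volume : Measure (Sg k → ℝ)).IsAddHaarMeasure := inferInstance
  set b := Pi.basis (fun _ : Fin 4 => B') with hb
  -- the volume of the fundamental domain
  have hD : 0 < Φ.D := by
    have h1 : volume (ZSpan.fundamentalDomain Φ.B) ≠ 0 :=
      ZSpan.measure_fundamentalDomain_ne_zero Φ.B
    have h2 : volume (ZSpan.fundamentalDomain Φ.B) < ⊤ :=
      (ZSpan.fundamentalDomain_isBounded Φ.B).measure_lt_top
    exact ENNReal.toReal_pos h1 h2.ne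
  have hNpos : (0 : ℝ) < (Ideal.absNorm N : ℝ) := by
    have h1 : Ideal.absNorm N ≠ 0 := by
      rw [Ne, Ideal.absNorm_eq_zero_iff]
      exact hN
    exact_mod_cast Nat.pos_of_ne_zero h1
  have hfd : (volume (ZSpan.fundamentalDomain b)).toReal =
      (Φ.D * (Ideal.absNorm N : ℝ)) ^ 4 := by
    rw [hb, fd_pi, volume_pi_pi, Finset.prod_const, Finset.card_univ, Fintype.card_fin,
      ENNReal.toReal_pow, hvol]
  have hfdpos : 0 < (Φ.D * (Ideal.absNorm N : ℝ)) ^ 4 := by positivity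
  have hrank : finrank ℝ (Fin 4 → Sg k → ℝ) = 4 * finrank ℚ k := by
    rw [Module.finrank_pi_fintype]
    simp only [Module.finrank_fintype_fun_eq_card, hcard]
    rw [Finset.sum_const, Finset.card_univ, Fintype.card_fin, smul_eq_mul]
  -- the compact set
  set K' : Set (Fin 4 → Sg k → ℝ) := {u | (fun s j => u j s) ∈ K} with hK'
  have hK'c : IsCompact K' := by
    have h1 : K' = (fun (w : Sg k → Fin 4 → ℝ) (j : Fin 4) (s : Sg k) => w s j) '' K := by
      ext u
      constructor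
      · intro hu
        exact ⟨fun s j => u j s, hu, rfl⟩
      · rintro ⟨w, hw, rfl⟩
        exact hw
    rw [h1]
    refine hK.image ?_
    fun_prop
  have hK'v : volume K' = volume K := by
    have h1 := hswp (Sg k) K' hK'c.measurableSet
    rw [← h1]
    rfl
  -- constants
  set s : ℝ := (S.ncard : ℝ) with hs
  have hs0 : 0 ≤ s := Nat.cast_nonneg _
  set ε' : ℝ := ε * (Φ.D * (Ideal.absNorm N : ℝ)) ^ 4 / (s + 1) with hε'
  have hε'0 : 0 < ε' := by positivity
  obtain ⟨t₀, ht₀, hsoft⟩ := hsft (Fin 4 → Sg k → ℝ) volume (Σ _ : Fin 4, Φ.κ) b K' hK'c ε' hε'0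
  refine ⟨t₀, ht₀, fun t ht => ?_⟩
  have htpos : 0 < t := lt_of_lt_of_le ht₀ ht
  have : Finite (𝓞 k ⧸ N) := Ideal.finiteQuotientOfFreeOfNeBot N hN
  set T : Set (Q4 (𝓞 k)) := {v : Q4 (𝓞 k) | modQ N v ∈ S ∧
    t⁻¹ • (fun (s : Sg k) (i : Fin 4) => s (v i : k)) ∈ K} with hT
  have hbd : ∀ c ∈ S, {v ∈ T | modQ N v = c}.Finite ∧ ({v ∈ T | modQ N v = c}.ncard : ℝ) ≤
      ((volume K).toReal + ε') * t ^ (4 * finrank ℚ k) /
        (Φ.D * (Ideal.absNorm N : ℝ)) ^ 4 := by
    intro c _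
    -- a representative
    have hrep : ∀ i, ∃ r : 𝓞 k, Ideal.Quotient.mk N r = c i := fun i =>
      Ideal.Quotient.mk_surjective (c i)
    choose r hr using hrep
    set x₀ : Fin 4 → Sg k → ℝ := fun j => lam ((r j : 𝓞 k) : k) with hx₀
    obtain ⟨hfin, hle⟩ := hsoft t ht x₀
    set Y : Set (Fin 4 → Sg k → ℝ) := {y | y ∈ Submodule.span ℤ (Set.range b) ∧
      t⁻¹ • (x₀ + y) ∈ K'} with hY
    set f : Q4 (𝓞 k) → Fin 4 → Sg k → ℝ := fun v j => lam ((v j - r j : 𝓞 k) : k) with hf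
    have hmaps : ∀ v ∈ {v ∈ T | modQ N v = c}, f v ∈ Y := by
      rintro v ⟨hvT, hvc⟩
      refine ⟨?_, ?_⟩
      · rw [hb, span_pi]
        intro j
        rw [hB']
        refine ⟨v j - r j, ?_, rfl⟩
        rw [← Ideal.Quotient.eq, hr j]
        exact congrFun hvc j
      · show (fun s j => (t⁻¹ • (x₀ + f v)) j s) ∈ K
        have h1 : (fun (s : Sg k) (j : Fin 4) => (t⁻¹ • (x₀ + f v)) j s) =
            t⁻¹ • (fun (s : Sg k) (i : Fin 4) => s (v i : k)) := by
          funext s j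
          show t⁻¹ * (s ((r j : 𝓞 k) : k) + s ((v j - r j : 𝓞 k) : k)) = t⁻¹ * s (v j : k)
          rw [← map_add, ← map_add, add_sub_cancel]
        rw [h1]
        exact hvT.2
    have hinj : Set.InjOn f {v ∈ T | modQ N v = c} := by
      intro v _ v' _ hvv
      funext j
      have h1 : lam ((v j - r j : 𝓞 k) : k) = lam ((v' j - r j : 𝓞 k) : k) := congrFun hvv j
      have hne : Nonempty (Sg k) := by
        rw [← Fintype.card_pos_iff, hcard]
        exact Module.finrank_pos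
      obtain ⟨s⟩ := hne
      have h2 : s ((v j - r j : 𝓞 k) : k) = s ((v' j - r j : 𝓞 k) : k) := congrFun h1 s
      have h3 : ((v j - r j : 𝓞 k) : k) = ((v' j - r j : 𝓞 k) : k) := s.injective h2
      have h4 : v j - r j = v' j - r j := RingOfIntegers.ext h3
      exact sub_left_injective h4
    have hfin' : {v ∈ T | modQ N v = c}.Finite :=
      Set.Finite.of_injOn (f := f) hmaps hinj hfin
    refine ⟨hfin', ?_⟩
    rw [le_div_iff₀ hfdpos, ← hK'v, ← hfd, ← hrank]
    refine le_trans ?_ hle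
    refine mul_le_mul_of_nonneg_right ?_ ENNReal.toReal_nonneg
    exact_mod_cast Set.ncard_le_ncard_of_injOn f hmaps hinj hfin
  obtain ⟨hfin, hle⟩ := fib_bound (modQ N) S T _ (fun v hv => hv.1) hbd
  refine ⟨hfin, hle.trans ?_⟩
  have ht4 : 0 ≤ t ^ (4 * finrank ℚ k) := by positivity
  have hkey : s * (((volume K).toReal + ε') / (Φ.D * (Ideal.absNorm N : ℝ)) ^ 4) ≤
      s / (Ideal.absNorm N : ℝ) ^ 4 * (volume K).toReal / Φ.D ^ 4 + ε := by
    have h1 : s * (((volume K).toReal + ε') / (Φ.D * (Ideal.absNorm N : ℝ)) ^ 4) =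
        s / (Ideal.absNorm N : ℝ) ^ 4 * (volume K).toReal / Φ.D ^ 4 +
          s * ε' / (Φ.D * (Ideal.absNorm N : ℝ)) ^ 4 := by
      field_simp
    rw [h1]
    have h2 : s * ε' / (Φ.D * (Ideal.absNorm N : ℝ)) ^ 4 = ε * (s / (s + 1)) := by
      rw [hε']
      field_simp
    rw [h2]
    have h3 : s / (s + 1) ≤ 1 := by
      rw [div_le_one (by positivity)]
      linarith
    have h4 : ε * (s / (s + 1)) ≤ ε * 1 := mul_le_mul_of_nonneg_left h3 hε.le
    linarith
  calc s * (((volume K).toReal + ε') * t ^ (4 * finrank ℚ k) /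
        (Φ.D * (Ideal.absNorm N : ℝ)) ^ 4)
      = s * (((volume K).toReal + ε') / (Φ.D * (Ideal.absNorm N : ℝ)) ^ 4) *
        t ^ (4 * finrank ℚ k) := by ring
    _ ≤ (s / (Ideal.absNorm N : ℝ) ^ 4 * (volume K).toReal / Φ.D ^ 4 + ε) *
        t ^ (4 * finrank ℚ k) := mul_le_mul_of_nonneg_right hkey ht4

end Pool.Agent.LeoK.H29
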