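import Pool.Agent.LeoK.UpStmts

/-!
# Squad leok, module SWP: swapping the two indices preserves the volume
-/

set_option autoImplicit false

namespace Pool.Agent.LeoK.H29

open MeasureTheory Pool.Agent.LeoK

/-- the swap of the indices -/
def swLin (σ : Type) : (σ → Fin 4 → ℝ) ≃ₗ[ℝ] (Fin 4 → σ → ℝ) where
  toFun w j s := w s j
  invFun w s j := w j s
  map_add' _ _ := rfl
  map_smul' _ _ := rfl
  left_inv _ := rfl
  right_inv _ := rfl

theorem haar_pi (ι σ : Type) [Fintype ι] [Fintype σ] :
    (volume : Measure (ι → σ → ℝ)).IsAddHaarMeasure :=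
  Measure.pi.isAddHaarMeasure (fun _ => (volume : Measure (σ → ℝ)))

/-- SWP. -/
theorem swp : SwpStmt := by
  intro σ _ S hS
  classical
  set E : (σ → Fin 4 → ℝ) ≃L[ℝ] (Fin 4 → σ → ℝ) := (swLin σ).toContinuousLinearEquiv with hE
  have hEa : ∀ w : σ → Fin 4 → ℝ, E w = fun j s => w s j := fun _ => rfl
  have h01 := haar_pi σ (Fin 4)
  have h02 := haar_pi (Fin 4) σ
  have h1 : (Measure.map E volume).IsAddHaarMeasure := E.isAddHaarMeasure_map volume
  have h2 := Measure.isAddLeftInvariant_eq_smul (Measure.map E volume)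
    (volume : Measure (Fin 4 → σ → ℝ))
  set c := Measure.addHaarScalarFactor (Measure.map E volume)
    (volume : Measure (Fin 4 → σ → ℝ)) with hc
  -- the cube
  set C : Set (Fin 4 → σ → ℝ) := Set.pi Set.univ fun _ => Set.pi Set.univ fun _ =>
    Set.Icc (0 : ℝ) 1 with hC
  have hCm : MeasurableSet C := MeasurableSet.univ_pi fun _ => MeasurableSet.univ_pi fun _ =>
    measurableSet_Icc
  have hC1 : volume C = 1 := by
    rw [hC, volume_pi_pi]
    simp only [volume_pi_pi]
    simp
  have hpre : E ⁻¹' C = Set.pi Set.univ fun _ => Set.pi Set.univ fun _ => Set.Icc (0 : ℝ) 1 := by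
    ext w
    simp only [Set.mem_preimage, hEa, hC, Set.mem_pi, Set.mem_univ, true_implies]
    exact forall_comm
  have hC2 : Measure.map E volume C = 1 := by
    rw [Measure.map_apply E.continuous.measurable hCm, hpre, volume_pi_pi]
    simp only [volume_pi_pi]
    simp
  have hc1 : c = 1 := by
    rw [h2, Measure.smul_apply, hC1] at hC2
    simpa using hC2
  rw [hc1, one_smul] at h2
  calc volume {w : σ → Fin 4 → ℝ | (fun j s => w s j) ∈ S} = Measure.map E volume S := by
        rw [Measure.map_apply E.continuous.measurable hS]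
        rfl
    _ = volume S := by rw [h2]

end Pool.Agent.LeoK.H29
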